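import Pool.Agent.W941.MG.Stm

/-! # MG-LOC: the local part of a family -/

set_option autoImplicit false

namespace Pool.Agent.W641.MG

open MvPolynomial
open Pool.Agent.W941.MG

/-- the variables other than `X j` are set to zero -/
noncomputable def kap {b : ℕ} (j : Fin b) : MvPolynomial (Fin b) ℂ →ₐ[ℂ] MvPolynomial (Fin b) ℂ :=
  aeval (fun j' => if j' = j then (X j' : MvPolynomial (Fin b) ℂ) else 0)

theorem coeff_kap {b : ℕ} (j : Fin b) (a : Fin b →₀ ℕ) (p : MvPolynomial (Fin b) ℂ) :
    (a.support ⊆ {j} → coeff a (kap j p) = coeff a p) ∧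
    (¬ a.support ⊆ {j} → coeff a (kap j p) = 0) := by
  classical
  induction p using MvPolynomial.induction_on' with
  | monomial u c =>
    unfold kap
    rw [aeval_monomial]
    by_cases hu : u.support ⊆ {j}
    · have h1 : (u.prod fun i k => (if i = j then (X i : MvPolynomial (Fin b) ℂ) else 0) ^ k) =
          u.prod fun i k => (X i : MvPolynomial (Fin b) ℂ) ^ k := by
        apply Finsupp.prod_congr
        intro i hi
        rw [if_pos (Finset.mem_singleton.1 (hu hi))]
      rw [h1, algebraMap_eq, ← monomial_eq]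
      refine ⟨fun _ => rfl, fun ha => ?_⟩
      rw [coeff_monomial, if_neg]
      rintro rfl
      exact ha hu
    · obtain ⟨i, hi, hij⟩ := Finset.not_subset.1 hu
      have hij' : i ≠ j := fun h => hij (Finset.mem_singleton.2 h)
      have h1 : (u.prod fun i k => (if i = j then (X i : MvPolynomial (Fin b) ℂ) else 0) ^ k) = 0 := by
        unfold Finsupp.prod
        apply Finset.prod_eq_zero hi
        show (if i = j then (X i : MvPolynomial (Fin b) ℂ) else 0) ^ (u i) = 0
        rw [if_neg hij']
        exact zero_pow (Finsupp.mem_support_iff.1 hi)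
      rw [h1, mul_zero, coeff_zero]
      refine ⟨fun ha => ?_, fun _ => rfl⟩
      rw [coeff_monomial, if_neg]
      rintro rfl
      exact hu ha
  | add p q hp hq =>
    rw [map_add, coeff_add, coeff_add]
    refine ⟨fun ha => ?_, fun ha => ?_⟩
    · rw [hp.1 ha, hq.1 ha]
    · rw [hp.2 ha, hq.2 ha, add_zero]

theorem loc_stmt : LocStmt := by
  intro b n N j
  have h1 : ∀ (a : Fin b →₀ ℕ) (p : Fam b N), (a.support ⊆ {j} → cf a (loc j p) = cf a p) ∧
      (¬ a.support ⊆ {j} → cf a (loc j p) = 0) := by
    intro a p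
    refine ⟨fun ha => ?_, fun ha => ?_⟩
    · funext x
      exact (coeff_kap j a (p x)).1 ha
    · funext x
      exact (coeff_kap j a (p x)).2 ha
  refine ⟨h1, ?_, ?_⟩
  · intro p x a ha
    by_contra hs
    exact ha ((coeff_kap j a (p x)).2 hs)
  · intro A m e ω i c hi
    funext x
    show kap j (tm e ω A i c x) = tm e ω A i c x
    unfold tm
    by_cases hc : c ∈ A (e i).1 (x (e i).1)
    · rw [if_pos hc, map_mul]
      congr 1
      · exact algHom_C _ _
      · unfold kap
        rw [aeval_X, if_pos hi]
    · rw [if_neg hc, map_zero]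

end Pool.Agent.W641.MG
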